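import Pool.Agent.Helper84.WD.TORb

/-!
# TOR: a torus in the middle piece
-/

set_option autoImplicit false

open Matrix

namespace MT

namespace Tor

variable {K : Type} [Field K] {n : ℕ}

/-- extension by zero -/
def ex (s : Fin n → ℤ) : ({j // s j = 0} → K) →ₗ[K] (Fin n → K) where
  toFun v i := if h : s i = 0 then v ⟨i, h⟩ else 0
  map_add' u v := by
    funext i
    by_cases h : s i = 0
    · simp [h]
    · simp [h]
  map_smul' c v := by
    funext i
    by_cases h : s i = 0
    · simp [h]
    · simp [h]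

theorem ex_of (s : Fin n → ℤ) (v : {j // s j = 0} → K) (i : Fin n) (h : s i = 0) :
    ex s v i = v ⟨i, h⟩ := dif_pos h

theorem ex_ne (s : Fin n → ℤ) (v : {j // s j = 0} → K) (i : Fin n) (h : s i ≠ 0) :
    ex s v i = 0 := dif_neg h

/-- a basis of the middle piece which consists of generalised eigenvectors -/
theorem mid_basis [IsAlgClosed K] (s : Fin n → ℤ) (W : Matrix (Fin n) (Fin n) K)
    (hW : OnMid s W) : ∃ (b : Module.Basis {j // s j = 0} K ({j // s j = 0} → K))
      (m : {j // s j = 0} → K), ∀ j, ex s (b j) ∈ GE W (m j) := by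
  classical
  set S0 : Set ({j // s j = 0} → K) := {v | ∃ μ, ex s v ∈ GE W μ} with hS0
  set π : Matrix (Fin n) (Fin n) K := Matrix.diagonal fun i => if s i = 0 then 1 else 0 with hπ
  have hπW : π * W = W * π := by
    ext i j
    rw [hπ, Matrix.diagonal_mul, Matrix.mul_diagonal]
    by_cases h : W i j = 0
    · rw [h, mul_zero, zero_mul]
    · obtain ⟨h1, h2⟩ := hW i j h
      rw [if_pos h1, if_pos h2, one_mul, mul_one]
  have hres : ∀ u : Fin n → K, (fun j : {j // s j = 0} => u j) ∈ Submodule.span K S0 := by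
    intro u
    refine Submodule.iSup_induction (fun μ => GE W μ)
      (motive := fun u => (fun j : {j // s j = 0} => u j) ∈ Submodule.span K S0)
      (GE_top W u) ?_ ?_ ?_
    · intro μ u hu
      apply Submodule.subset_span
      refine ⟨μ, ?_⟩
      have e : ex s (fun j : {j // s j = 0} => u j) = π *ᵥ u := by
        funext i
        rw [hπ, Matrix.mulVec_diagonal]
        by_cases h : s i = 0
        · rw [ex_of s _ i h, if_pos h, one_mul]
        · rw [ex_ne s _ i h, if_neg h, zero_mul]
      rw [e]
      exact GE_comm hπW hu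
    · exact Submodule.zero_mem _
    · intro u v hu hv
      exact Submodule.add_mem _ hu hv
  have htop : Submodule.span K S0 = ⊤ := by
    rw [eq_top_iff]
    intro v _
    have h1 := hres (ex s v)
    have e : (fun j : {j // s j = 0} => ex s v j) = v := by
      funext j
      exact ex_of s v j j.2
    rwa [e] at h1
  obtain ⟨B, hBS, hBspan, hBli⟩ := exists_linearIndependent K S0
  let b0 : Module.Basis B K ({j // s j = 0} → K) := Module.Basis.mk hBli (by
    rw [Subtype.range_coe, hBspan, htop])
  let e0 : B ≃ {j // s j = 0} := b0.indexEquiv (Pi.basisFun K {j // s j = 0})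
  have h2 : ∀ j, ∃ μ, ex s ((b0.reindex e0) j) ∈ GE W μ := by
    intro j
    rw [Module.Basis.reindex_apply]
    have h3 : b0 (e0.symm j) = ((e0.symm j : B) : {j // s j = 0} → K) := by
      rw [Module.Basis.mk_apply]
    rw [h3]
    exact hBS (e0.symm j).2
  choose m hm using h2
  exact ⟨b0.reindex e0, m, hm⟩

/-- the change of basis -/
theorem mid_P (s : Fin n → ℤ) (b : Module.Basis {j // s j = 0} K ({j // s j = 0} → K)) :
    ∃ P : Matrix.GeneralLinearGroup (Fin n) K,
      (∀ i j, (P : Matrix (Fin n) (Fin n) K) i j ≠ 0 → s i = s j) ∧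
      (∀ (j : Fin n) (h : s j = 0), (fun i => (P : Matrix (Fin n) (Fin n) K) i j) =
        ex s (b ⟨j, h⟩)) ∧
      ∀ j : Fin n, s j ≠ 0 → (fun i => (P : Matrix (Fin n) (Fin n) K) i j) = Pi.single j 1 := by
  classical
  set P : Matrix (Fin n) (Fin n) K := Matrix.of fun i j =>
    if h : s j = 0 then ex s (b ⟨j, h⟩) i else (Pi.single j 1 : Fin n → K) i with hP
  have h1 : ∀ (j : Fin n) (h : s j = 0), (fun i => P i j) = ex s (b ⟨j, h⟩) := by
    intro j h
    funext i
    rw [hP, Matrix.of_apply, dif_pos h]
  have h2 : ∀ j : Fin n, s j ≠ 0 → (fun i => P i j) = Pi.single j 1 := by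
    intro j h
    funext i
    rw [hP, Matrix.of_apply, dif_neg h]
  have hcol : ∀ j, P *ᵥ (Pi.single j 1) = fun i => P i j := by
    intro j
    funext i
    simp
  have hu : IsUnit P := by
    rw [← Matrix.mulVec_surjective_iff_isUnit]
    have h3 : LinearMap.range (Matrix.mulVecLin P) = ⊤ := by
      have hex : ∀ v, ex s v ∈ LinearMap.range (Matrix.mulVecLin P) := by
        intro v
        have h4 : v ∈ Submodule.span K (Set.range b) := by
          rw [b.span_eq]
          exact Submodule.mem_top
        refine Submodule.span_induction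
          (p := fun v _ => ex s v ∈ LinearMap.range (Matrix.mulVecLin P)) ?_ ?_ ?_ ?_ h4
        · rintro _ ⟨j, rfl⟩
          refine ⟨Pi.single (j : Fin n) 1, ?_⟩
          rw [Matrix.mulVecLin_apply, hcol, h1 j j.2]
        · rw [map_zero]
          exact Submodule.zero_mem _
        · intro u v _ _ hu hv
          rw [map_add]
          exact Submodule.add_mem _ hu hv
        · intro t v _ hv
          rw [map_smul]
          exact Submodule.smul_mem _ t hv
      have hs : ∀ j : Fin n, (Pi.single j 1 : Fin n → K) ∈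
          LinearMap.range (Matrix.mulVecLin P) := by
        intro j
        by_cases h : s j = 0
        · have e : (Pi.single j 1 : Fin n → K) = ex s (Pi.single ⟨j, h⟩ 1) := by
            funext i
            by_cases hi : s i = 0
            · rw [ex_of s _ i hi]
              by_cases hij : i = j
              · subst hij
                rw [Pi.single_eq_same, Pi.single_eq_same]
              · rw [Pi.single_eq_of_ne hij, Pi.single_eq_of_ne]
                intro h5
                exact hij (congrArg Subtype.val h5)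
            · rw [ex_ne s _ i hi, Pi.single_eq_of_ne]
              rintro rfl
              exact hi h
          rw [e]
          exact hex _
        · refine ⟨Pi.single j 1, ?_⟩
          rw [Matrix.mulVecLin_apply, hcol, h2 j h]
      rw [eq_top_iff]
      intro u _
      rw [pi_eq_sum_univ' u]
      apply Submodule.sum_mem
      intro j _
      apply Submodule.smul_mem
      exact hs j
    intro u
    have h5 : u ∈ LinearMap.range (Matrix.mulVecLin P) := by
      rw [h3]
      exact Submodule.mem_top
    obtain ⟨v, hv⟩ := h5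
    exact ⟨v, hv⟩
  obtain ⟨Q, hQ⟩ := hu
  refine ⟨Q, ?_, ?_, ?_⟩
  · intro i j hij
    rw [hQ] at hij
    by_cases h : s j = 0
    · by_contra h6
      apply hij
      have h7 := congrFun (h1 j h) i
      change P i j = _ at h7
      rw [h7, ex_ne]
      intro h8
      exact h6 (by rw [h8, h])
    · have h7 := congrFun (h2 j h) i
      change P i j = _ at h7
      rw [h7] at hij
      by_contra h8
      apply hij
      rw [Pi.single_eq_of_ne]
      rintro rfl
      exact h8 rfl
  · intro j h
    rw [hQ]
    exact h1 j h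
  · intro j h
    rw [hQ]
    exact h2 j h

end Tor

open Tor in
theorem st_TOR : ST_TOR := by
  classical
  intro K _ _ _ n ε ψ s a hG hz
  obtain ⟨W, hWa, hWm, hWn⟩ := tor_nonnil hG hz
  obtain ⟨ζ, hζ, hζE⟩ := GE_ne W hWn
  -- the additive function
  obtain ⟨φ0, hφ0⟩ : ∃ φ0 : Module.Dual ℚ K, φ0 ζ ≠ 0 := by
    by_contra hcon
    push Not at hcon
    exact hζ ((Module.forall_dual_apply_eq_zero_iff ℚ ζ).1 hcon)
  set E : Finset K := (GE_fin W).toFinset with hE
  have hmemE : ∀ μ, GE W μ ≠ ⊥ → μ ∈ E := fun μ h => (GE_fin W).mem_toFinset.2 h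
  obtain ⟨b, hb⟩ := IsLocalization.exist_integer_multiples_of_finset (nonZeroDivisors ℤ)
    (E.image φ0)
  have hb0 : (b : ℤ) ≠ 0 := nonZeroDivisors.ne_zero b.2
  set φ : K → ℚ := fun μ => ((b : ℤ) : ℚ) * φ0 μ with hφ
  have hadd : ∀ x y, φ (x + y) = φ x + φ y := by
    intro x y
    simp only [hφ, map_add, mul_add]
  have hzero : φ 0 = 0 := by
    simp only [hφ, map_zero, mul_zero]
  have hφζ : φ ζ ≠ 0 := by
    simp only [hφ]
    exact mul_ne_zero (Int.cast_ne_zero.2 hb0) hφ0
  have hint : ∀ μ, ∃ m : ℤ, μ ∈ E → (m : ℚ) = φ μ := by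
    intro μ
    by_cases h : μ ∈ E
    · obtain ⟨m, hm⟩ := hb (φ0 μ) (Finset.mem_image_of_mem _ h)
      refine ⟨m, fun _ => ?_⟩
      simp only [hφ]
      have h1 : (m : ℚ) = (b : ℤ) • φ0 μ := hm
      rw [h1, zsmul_eq_mul]
    · exact ⟨0, fun h' => absurd h' h⟩
  choose dd hdd using hint
  obtain ⟨D, hDc, hDv⟩ := exists_fun W (fun μ => ((φ μ : ℚ) : K))
  -- skewness
  have hskew : D.transpose * ψ + ψ * D = 0 := by
    have key : ∀ u v : Fin n → K, u ⬝ᵥ ((D.transpose * ψ + ψ * D) *ᵥ v) = 0 := by
      have e0 : ∀ u v : Fin n → K, u ⬝ᵥ ((D.transpose * ψ + ψ * D) *ᵥ v) =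
          (D *ᵥ u) ⬝ᵥ (ψ *ᵥ v) + u ⬝ᵥ (ψ *ᵥ (D *ᵥ v)) := by
        intro u v
        have h4 : (D *ᵥ u) ⬝ᵥ (ψ *ᵥ v) = u ⬝ᵥ ((D.transpose * ψ) *ᵥ v) := by
          rw [← Matrix.mulVec_mulVec, Matrix.dotProduct_mulVec u, Matrix.vecMul_transpose]
        rw [h4, Matrix.mulVec_mulVec, ← dotProduct_add, ← Matrix.add_mulVec]
      intro u
      refine Submodule.iSup_induction (fun μ => GE W μ)
        (motive := fun u => ∀ v : Fin n → K, u ⬝ᵥ ((D.transpose * ψ + ψ * D) *ᵥ v) = 0)
        (GE_top W u) ?_ ?_ ?_
      · intro μ u hu v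
        refine Submodule.iSup_induction (fun μ => GE W μ)
          (motive := fun v => u ⬝ᵥ ((D.transpose * ψ + ψ * D) *ᵥ v) = 0)
          (GE_top W v) ?_ ?_ ?_
        · intro ν v hv
          rw [e0, hDv μ u hu, hDv ν v hv, smul_dotProduct, Matrix.mulVec_smul, dotProduct_smul,
            smul_eq_mul, smul_eq_mul, ← add_mul]
          by_cases h : μ + ν = 0
          · have h1 : φ μ + φ ν = 0 := by rw [← hadd, h, hzero]
            have h2 : ((φ μ : ℚ) : K) + ((φ ν : ℚ) : K) = 0 := by
              rw [← Rat.cast_add, h1, Rat.cast_zero]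
            rw [h2, zero_mul]
          · rw [GE_orth W ψ (hG.iso W hWa) μ ν h (n + n) n n u v rfl (mem_GE_n hu) (mem_GE_n hv),
              mul_zero]
        · rw [Matrix.mulVec_zero, dotProduct_zero]
        · intro v v' hv hv'
          rw [Matrix.mulVec_add, dotProduct_add, hv, hv', add_zero]
      · intro v
        rw [zero_dotProduct]
      · intro u u' hu hu' v
        rw [add_dotProduct, hu, hu', add_zero]
    ext i j
    have h1 := key (Pi.single i 1) (Pi.single j 1)
    simpa using h1
  -- `D` normalises `a`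
  have hnorm : ∀ A ∈ a, D * A - A * D ∈ a := by
    set T : Module.End K (Matrix (Fin n) (Fin n) K) :=
      (LinearMap.mulLeft K W) - (LinearMap.mulRight K W) with hT
    have hTx : ∀ x, T x = W * x - x * W := by
      intro x
      simp [hT]
    have hTa : ∀ x ∈ a, T x ∈ a := by
      intro x hx
      rw [hTx]
      exact hG.brk W hWa x hx
    intro A hA
    have h1 : A ∈ a ⊓ ⨆ τ, T.genEigenspace τ ⊤ := by
      refine ⟨hA, ?_⟩
      have h2 := Module.End.iSup_maxGenEigenspace_eq_top T
      have h3 : (⨆ τ, T.genEigenspace τ ⊤) = ⊤ := h2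
      rw [h3]
      exact Submodule.mem_top
    rw [Submodule.inf_iSup_genEigenspace hTa ⊤] at h1
    refine Submodule.iSup_induction (fun τ => a ⊓ T.genEigenspace τ ⊤)
      (motive := fun x => D * x - x * D ∈ a) h1 ?_ ?_ ?_
    · rintro τ x ⟨hx, hxT⟩
      have hxT' : x ∈ T.maxGenEigenspace τ := hxT
      rw [Module.End.mem_maxGenEigenspace] at hxT'
      obtain ⟨k, hk⟩ := hxT'
      have e : D * x - x * D = ((φ τ : ℚ) : K) • x := by
        apply Matrix.toLin'.injective
        apply LinearMap.ext
        intro v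
        rw [Matrix.toLin'_apply, Matrix.toLin'_apply]
        refine Submodule.iSup_induction (fun μ => GE W μ)
          (motive := fun v => (D * x - x * D) *ᵥ v = (((φ τ : ℚ) : K) • x) *ᵥ v)
          (GE_top W v) ?_ ?_ ?_
        · intro μ v hv
          have hxv : x *ᵥ v ∈ GE W (μ + τ) :=
            mem_GE.2 ⟨k + n, GE_mul W μ τ T hTx (k + n) k n x v rfl hk (mem_GE_n hv)⟩
          rw [Matrix.sub_mulVec, ← Matrix.mulVec_mulVec, ← Matrix.mulVec_mulVec, hDv _ _ hxv,
            hDv _ _ hv, Matrix.mulVec_smul, Matrix.smul_mulVec, hadd, Rat.cast_add, add_smul,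
            add_sub_cancel_left]
        · rw [Matrix.mulVec_zero, Matrix.mulVec_zero]
        · intro u v hu hv
          rw [Matrix.mulVec_add, Matrix.mulVec_add, hu, hv]
      rw [e]
      exact a.smul_mem _ hx
    · rw [mul_zero, zero_mul, sub_zero]
      exact a.zero_mem
    · intro x y hx hy
      have e : D * (x + y) - (x + y) * D = (D * x - x * D) + (D * y - y * D) := by
        rw [mul_add, add_mul]
        abel
      rw [e]
      exact a.add_mem hx hy
  have hDa : D ∈ a := st_DRV K n ψ a hG.unit hG.brk hG.irr hG.iso D hskew hnorm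
  -- the basis
  obtain ⟨bb, m, hm⟩ := mid_basis s W hWm
  obtain ⟨P, hPs, hPb, hPo⟩ := mid_P s bb
  set d : Fin n → ℤ := fun j => if h : s j = 0 then dd (m ⟨j, h⟩) else 0 with hd
  have hDP : D * (P : Matrix (Fin n) (Fin n) K) =
      (P : Matrix (Fin n) (Fin n) K) * Matrix.diagonal (fun j => (d j : K)) := by
    ext i j
    have e1 : (D * (P : Matrix (Fin n) (Fin n) K)) i j =
        (D *ᵥ (fun i => (P : Matrix (Fin n) (Fin n) K) i j)) i := by
      rw [Matrix.mul_apply]
      rfl
    rw [e1, Matrix.mul_diagonal]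
    by_cases h : s j = 0
    · have h2 := hPb j h
      have h3 := congrFun h2 i
      change (P : Matrix (Fin n) (Fin n) K) i j = _ at h3
      rw [h2, hDv _ _ (hm ⟨j, h⟩), h3, Pi.smul_apply, smul_eq_mul, mul_comm]
      congr 1
      have h4 : m ⟨j, h⟩ ∈ E := by
        apply hmemE
        intro h5
        have h6 := hm ⟨j, h⟩
        rw [h5, Submodule.mem_bot] at h6
        apply bb.ne_zero ⟨j, h⟩
        funext l
        have h7 := congrFun h6 l
        rw [ex_of s _ l l.2] at h7
        exact h7
      have h5 : d j = dd (m ⟨j, h⟩) := by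
        simp only [hd]
        rw [dif_pos h]
      rw [h5]
      have h6 := hdd _ h4
      rw [← h6, Rat.cast_intCast]
    · have h2 := hPo j h
      have h5 : d j = 0 := by
        simp only [hd]
        rw [dif_neg h]
      have h6 : (Pi.single j 1 : Fin n → K) ∈ GE W 0 := by
        rw [mem_GE]
        refine ⟨1, ?_⟩
        rw [zero_smul, sub_zero, pow_one]
        funext l
        have h7 : W l j = 0 := by
          by_contra h8
          exact h (hWm l j h8).2
        simpa using h7
      rw [h2, hDv _ _ h6, hzero, Rat.cast_zero, zero_smul, h5, Int.cast_zero, mul_zero,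
        Pi.zero_apply]
  have hPP : (P : Matrix (Fin n) (Fin n) K) *
      ((P⁻¹ : Matrix.GeneralLinearGroup (Fin n) K) : Matrix (Fin n) (Fin n) K) = 1 := by
    rw [← Units.val_mul, mul_inv_cancel, Units.val_one]
  have hDe : (P : Matrix (Fin n) (Fin n) K) * Matrix.diagonal (fun j => (d j : K)) *
      ((P⁻¹ : Matrix.GeneralLinearGroup (Fin n) K) : Matrix (Fin n) (Fin n) K) = D := by
    rw [← hDP, mul_assoc, hPP, mul_one]
  refine ⟨P, d, hPs, ?_, ?_, ?_⟩
  · by_contra hcon
    push Not at hcon
    have h1 : D = 0 := by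
      rw [← hDe]
      have : (Matrix.diagonal (fun j => (d j : K))) = 0 := by
        simp only [hcon, Int.cast_zero, Matrix.diagonal_zero]
      rw [this, mul_zero, zero_mul]
    obtain ⟨u, hu, hu0⟩ := Submodule.exists_mem_ne_zero_of_ne_bot hζE
    have h2 := hDv ζ u hu
    rw [h1, Matrix.zero_mulVec] at h2
    have h3 := (smul_eq_zero.1 h2.symm).resolve_right hu0
    exact hφζ (Rat.cast_eq_zero.1 h3)
  · intro i hi
    simp only [hd]
    rw [dif_neg hi]
  · rw [hDe]
    exact hDa

end MT
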