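import Pool.Agent.Helper21.WD.StmtsQ
import Pool.Agent.Helper84.WD.TOR

/-!
# REP: additive functions of an element of degree zero
-/

set_option autoImplicit false

open Matrix

namespace MT

namespace Tor

open BND92

variable {K : Type} [Field K] {n : ℕ}

/-- additive functions of the generalised eigenvalues of an element of `a` are in `a` -/
theorem add_mem_a [CharZero K] [IsAlgClosed K] {ε : K} {ψ : Matrix (Fin n) (Fin n) K}
    {s : Fin n → ℤ} {a : Submodule K (Matrix (Fin n) (Fin n) K)} (hG : GrD ε ψ s a)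
    (W : Matrix (Fin n) (Fin n) K) (hWa : W ∈ a) (φ : K →+ K) (D : Matrix (Fin n) (Fin n) K)
    (hDv : ∀ μ, ∀ v ∈ GE W μ, D *ᵥ v = φ μ • v) : D ∈ a := by
  -- skewness
  have hskew : D.transpose * ψ + ψ * D = 0 := by
    have key : ∀ u v : Fin n → K, u ⬝ᵥ ((D.transpose * ψ + ψ * D) *ᵥ v) = 0 := by
      have e0 : ∀ u v : Fin n → K, u ⬝ᵥ ((D.transpose * ψ + ψ * D) *ᵥ v) =
          (D *ᵥ u) ⬝ᵥ (ψ *ᵥ v) + u ⬝ᵥ (ψ *ᵥ (D *ᵥ v)) := by
        intro u v
        have h4 : (D *ᵥ u) ⬝ᵥ (ψ *ᵥ v) = u ⬝ᵥ ((D.transpose * ψ) *ᵥ v) := by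
          rw [← Matrix.mulVec_mulVec, Matrix.dotProduct_mulVec u, Matrix.vecMul_transpose]
        rw [h4, Matrix.mulVec_mulVec, ← dotProduct_add, ← Matrix.add_mulVec]
      intro u
      refine Submodule.iSup_induction (fun μ => GE W μ)
        (motive := fun u => ∀ v : Fin n → K, u ⬝ᵥ ((D.transpose * ψ + ψ * D) *ᵥ v) = 0)
        (GE_top W u) ?_ ?_ ?_
      · intro μ u hu v
        refine Submodule.iSup_induction (fun μ => GE W μ)
          (motive := fun v => u ⬝ᵥ ((D.transpose * ψ + ψ * D) *ᵥ v) = 0)
          (GE_top W v) ?_ ?_ ?_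
        · intro ν v hv
          rw [e0, hDv μ u hu, hDv ν v hv, smul_dotProduct, Matrix.mulVec_smul, dotProduct_smul,
            smul_eq_mul, smul_eq_mul, ← add_mul]
          by_cases h : μ + ν = 0
          · rw [← map_add, h, map_zero, zero_mul]
          · rw [GE_orth W ψ (hG.iso W hWa) μ ν h (n + n) n n u v rfl (mem_GE_n hu) (mem_GE_n hv),
              mul_zero]
        · rw [Matrix.mulVec_zero, dotProduct_zero]
        · intro v v' hv hv'
          rw [Matrix.mulVec_add, dotProduct_add, hv, hv', add_zero]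
      · intro v
        rw [zero_dotProduct]
      · intro u u' hu hu' v
        rw [add_dotProduct, hu, hu', add_zero]
    ext i j
    have h1 := key (Pi.single i 1) (Pi.single j 1)
    simpa using h1
  -- `D` normalises `a`
  have hnorm : ∀ A ∈ a, D * A - A * D ∈ a := by
    set T : Module.End K (Matrix (Fin n) (Fin n) K) :=
      (LinearMap.mulLeft K W) - (LinearMap.mulRight K W) with hT
    have hTx : ∀ x, T x = W * x - x * W := by
      intro x
      simp [hT]
    have hTa : ∀ x ∈ a, T x ∈ a := by
      intro x hx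
      rw [hTx]
      exact hG.brk W hWa x hx
    intro A hA
    have h1 : A ∈ a ⊓ ⨆ τ, T.genEigenspace τ ⊤ := by
      refine ⟨hA, ?_⟩
      have h2 := Module.End.iSup_maxGenEigenspace_eq_top T
      have h3 : (⨆ τ, T.genEigenspace τ ⊤) = ⊤ := h2
      rw [h3]
      exact Submodule.mem_top
    rw [Submodule.inf_iSup_genEigenspace hTa ⊤] at h1
    refine Submodule.iSup_induction (fun τ => a ⊓ T.genEigenspace τ ⊤)
      (motive := fun x => D * x - x * D ∈ a) h1 ?_ ?_ ?_
    · rintro τ x ⟨hx, hxT⟩
      have hxT' : x ∈ T.maxGenEigenspace τ := hxT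
      rw [Module.End.mem_maxGenEigenspace] at hxT'
      obtain ⟨k, hk⟩ := hxT'
      have e : D * x - x * D = φ τ • x := by
        apply Matrix.toLin'.injective
        apply LinearMap.ext
        intro v
        rw [Matrix.toLin'_apply, Matrix.toLin'_apply]
        refine Submodule.iSup_induction (fun μ => GE W μ)
          (motive := fun v => (D * x - x * D) *ᵥ v = (φ τ • x) *ᵥ v)
          (GE_top W v) ?_ ?_ ?_
        · intro μ v hv
          have hxv : x *ᵥ v ∈ GE W (μ + τ) :=
            mem_GE.2 ⟨k + n, GE_mul W μ τ T hTx (k + n) k n x v rfl hk (mem_GE_n hv)⟩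
          rw [Matrix.sub_mulVec, ← Matrix.mulVec_mulVec, ← Matrix.mulVec_mulVec, hDv _ _ hxv,
            hDv _ _ hv, Matrix.mulVec_smul, Matrix.smul_mulVec, map_add, add_smul,
            add_sub_cancel_left]
        · rw [Matrix.mulVec_zero, Matrix.mulVec_zero]
        · intro u v hu hv
          rw [Matrix.mulVec_add, Matrix.mulVec_add, hu, hv]
      rw [e]
      exact a.smul_mem _ hx
    · rw [mul_zero, zero_mul, sub_zero]
      exact a.zero_mem
    · intro x y hx hy
      have e : D * (x + y) - (x + y) * D = (D * x - x * D) + (D * y - y * D) := by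
        rw [mul_add, add_mul]
        abel
      rw [e]
      exact a.add_mem hx hy
  exact st_DRV K n ψ a hG.unit hG.brk hG.irr hG.iso D hskew hnorm

/-- a basis of the piece `k` which consists of generalised eigenvectors -/
theorem piece_basis [IsAlgClosed K] (s : Fin n → ℤ) (W : Matrix (Fin n) (Fin n) K)
    (hW : Hm s 0 W) (k : ℤ) :
    ∃ (b : Module.Basis {j // s j - k = 0} K ({j // s j - k = 0} → K))
      (m : {j // s j - k = 0} → K), ∀ j, ex (fun i => s i - k) (b j) ∈ GE W (m j) := by
  classical
  set s' : Fin n → ℤ := fun i => s i - k with hs'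
  set S0 : Set ({j // s' j = 0} → K) := {v | ∃ μ, ex s' v ∈ GE W μ} with hS0
  set π : Matrix (Fin n) (Fin n) K := Matrix.diagonal fun i => if s' i = 0 then 1 else 0 with hπ
  have hπW : π * W = W * π := by
    ext i j
    rw [hπ, Matrix.diagonal_mul, Matrix.mul_diagonal]
    by_cases h : W i j = 0
    · rw [h, mul_zero, zero_mul]
    · have h1 : s' i = s' j := by
        have := hW i j h
        simp only [hs']
        omega
      rw [h1, mul_comm]
  have hres : ∀ u : Fin n → K, (fun j : {j // s' j = 0} => u j) ∈ Submodule.span K S0 := by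
    intro u
    refine Submodule.iSup_induction (fun μ => GE W μ)
      (motive := fun u => (fun j : {j // s' j = 0} => u j) ∈ Submodule.span K S0)
      (GE_top W u) ?_ ?_ ?_
    · intro μ u hu
      apply Submodule.subset_span
      refine ⟨μ, ?_⟩
      have e : ex s' (fun j : {j // s' j = 0} => u j) = π *ᵥ u := by
        funext i
        rw [hπ, Matrix.mulVec_diagonal]
        by_cases h : s' i = 0
        · rw [ex_of s' _ i h, if_pos h, one_mul]
        · rw [ex_ne s' _ i h, if_neg h, zero_mul]
      rw [e]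
      exact GE_comm hπW hu
    · exact Submodule.zero_mem _
    · intro u v hu hv
      exact Submodule.add_mem _ hu hv
  have htop : Submodule.span K S0 = ⊤ := by
    rw [eq_top_iff]
    intro v _
    have h1 := hres (ex s' v)
    have e : (fun j : {j // s' j = 0} => ex s' v j) = v := by
      funext j
      exact ex_of s' v j j.2
    rwa [e] at h1
  obtain ⟨B, hBS, hBspan, hBli⟩ := exists_linearIndependent K S0
  let b0 : Module.Basis B K ({j // s' j = 0} → K) := Module.Basis.mk hBli (by
    rw [Subtype.range_coe, hBspan, htop])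
  let e0 : B ≃ {j // s' j = 0} := b0.indexEquiv (Pi.basisFun K {j // s' j = 0})
  have h2 : ∀ j, ∃ μ, ex s' ((b0.reindex e0) j) ∈ GE W μ := by
    intro j
    rw [Module.Basis.reindex_apply]
    have h3 : b0 (e0.symm j) = ((e0.symm j : B) : {j // s' j = 0} → K) := by
      rw [Module.Basis.mk_apply]
    rw [h3]
    exact hBS (e0.symm j).2
  choose m hm using h2
  exact ⟨b0.reindex e0, m, hm⟩

/-- a homogeneous basis which consists of generalised eigenvectors -/
theorem all_P [IsAlgClosed K] (s : Fin n → ℤ) (W : Matrix (Fin n) (Fin n) K) (hW : Hm s 0 W) :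
    ∃ (P : Matrix.GeneralLinearGroup (Fin n) K) (w : Fin n → K),
      (∀ i j, (P : Matrix (Fin n) (Fin n) K) i j ≠ 0 → s i = s j) ∧
      ∀ j : Fin n, (fun i => (P : Matrix (Fin n) (Fin n) K) i j) ∈ GE W (w j) := by
  classical
  choose b m hm using piece_basis s W hW
  set P : Matrix (Fin n) (Fin n) K := Matrix.of fun i j =>
    ex (fun l => s l - s j) (b (s j) ⟨j, sub_self _⟩) i with hP
  have h1 : ∀ j : Fin n, (fun i => P i j) = ex (fun l => s l - s j) (b (s j) ⟨j, sub_self _⟩) := by
    intro j
    rfl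
  have hcol : ∀ j, P *ᵥ (Pi.single j 1) = fun i => P i j := by
    intro j
    funext i
    simp
  have hu : IsUnit P := by
    rw [← Matrix.mulVec_surjective_iff_isUnit]
    have h3 : LinearMap.range (Matrix.mulVecLin P) = ⊤ := by
      have hex : ∀ (k : ℤ) (v : {j // s j - k = 0} → K),
          ex (fun l => s l - k) v ∈ LinearMap.range (Matrix.mulVecLin P) := by
        intro k v
        have h4 : v ∈ Submodule.span K (Set.range (b k)) := by
          rw [(b k).span_eq]
          exact Submodule.mem_top
        refine Submodule.span_induction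
          (p := fun v _ => ex (fun l => s l - k) v ∈ LinearMap.range (Matrix.mulVecLin P))
          ?_ ?_ ?_ ?_ h4
        · rintro _ ⟨⟨j, hj⟩, rfl⟩
          obtain rfl : k = s j := by omega
          refine ⟨Pi.single j 1, ?_⟩
          rw [Matrix.mulVecLin_apply, hcol, h1 j]
        · rw [map_zero]
          exact Submodule.zero_mem _
        · intro u v _ _ hu hv
          rw [map_add]
          exact Submodule.add_mem _ hu hv
        · intro t v _ hv
          rw [map_smul]
          exact Submodule.smul_mem _ t hv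
      have hs : ∀ j : Fin n, (Pi.single j 1 : Fin n → K) ∈
          LinearMap.range (Matrix.mulVecLin P) := by
        intro j
        have e : (Pi.single j 1 : Fin n → K) =
            ex (fun l => s l - s j) (Pi.single ⟨j, sub_self _⟩ 1) := by
          funext i
          by_cases hi : s i - s j = 0
          · rw [ex_of _ _ i hi]
            by_cases hij : i = j
            · subst hij
              rw [Pi.single_eq_same, Pi.single_eq_same]
            · rw [Pi.single_eq_of_ne hij, Pi.single_eq_of_ne]
              intro h5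
              exact hij (congrArg Subtype.val h5)
          · rw [ex_ne _ _ i hi, Pi.single_eq_of_ne]
            rintro rfl
            exact hi (sub_self _)
        rw [e]
        exact hex _ _
      rw [eq_top_iff]
      intro u _
      rw [pi_eq_sum_univ' u]
      apply Submodule.sum_mem
      intro j _
      apply Submodule.smul_mem
      exact hs j
    intro u
    have h5 : u ∈ LinearMap.range (Matrix.mulVecLin P) := by
      rw [h3]
      exact Submodule.mem_top
    obtain ⟨v, hv⟩ := h5
    exact ⟨v, hv⟩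
  obtain ⟨Q, hQ⟩ := hu
  refine ⟨Q, fun j => m (s j) ⟨j, sub_self _⟩, ?_, ?_⟩
  · intro i j hij
    rw [hQ] at hij
    by_contra h6
    apply hij
    have h7 := congrFun (h1 j) i
    change P i j = _ at h7
    rw [h7, ex_ne]
    intro h8
    exact h6 (sub_eq_zero.1 h8)
  · intro j
    rw [hQ, h1 j]
    exact hm (s j) ⟨j, sub_self _⟩

end Tor

open Tor BND92 in
/-- general form: the trace over every piece -/
theorem rep_all {K : Type} [Field K] [CharZero K] [IsAlgClosed K] {n : ℕ} {ε : K}
    {ψ : Matrix (Fin n) (Fin n) K} {s : Fin n → ℤ}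
    {a : Submodule K (Matrix (Fin n) (Fin n) K)} (hG : GrD ε ψ s a)
    (x : Matrix (Fin n) (Fin n) K) (hx : x ∈ gr s 0 a) (hxn : ¬ IsNilpotent x) :
    ∃ w : Fin n → K, w ≠ 0 ∧ ∀ f : K →+ K, ∃ D ∈ gr s 0 a, ∀ p : Fin n → K,
      (∀ i j, s i = s j → p i = p j) →
        (Matrix.diagonal p * (x * D)).trace = ∑ j, p j * (w j * f (w j)) := by
  classical
  obtain ⟨hxa, hx0⟩ := mem_gr.1 hx
  obtain ⟨P, w, hPs, hPw⟩ := all_P s x hx0
  set Q : Matrix (Fin n) (Fin n) K :=
    ((P⁻¹ : Matrix.GeneralLinearGroup (Fin n) K) : Matrix (Fin n) (Fin n) K) with hQ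
  have hPQ : (P : Matrix (Fin n) (Fin n) K) * Q = 1 := by
    rw [hQ, ← Units.val_mul, mul_inv_cancel, Units.val_one]
  have hQP : Q * (P : Matrix (Fin n) (Fin n) K) = 1 := by
    rw [hQ, ← Units.val_mul, inv_mul_cancel, Units.val_one]
  obtain ⟨S, hSc, hSv⟩ := exists_fun x id
  -- functions of `x` in the basis
  have hcols : ∀ (D : Matrix (Fin n) (Fin n) K) (c : K → K),
      (∀ μ, ∀ v ∈ GE x μ, D *ᵥ v = c μ • v) →
      D * (P : Matrix (Fin n) (Fin n) K) =
        (P : Matrix (Fin n) (Fin n) K) * Matrix.diagonal (fun j => c (w j)) := by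
    intro D c hD
    ext i j
    have e1 : (D * (P : Matrix (Fin n) (Fin n) K)) i j =
        (D *ᵥ (fun i => (P : Matrix (Fin n) (Fin n) K) i j)) i := by
      rw [Matrix.mul_apply]
      rfl
    rw [e1, hD _ _ (hPw j), Matrix.mul_diagonal, Pi.smul_apply, smul_eq_mul, mul_comm]
  have hSP := hcols S id hSv
  -- the nilpotent part
  have hNn : IsNilpotent (x - S) := by
    refine ⟨n, ?_⟩
    apply Matrix.toLin'.injective
    apply LinearMap.ext
    intro v
    rw [Matrix.toLin'_apply, map_zero, LinearMap.zero_apply]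
    refine Submodule.iSup_induction (fun μ => GE x μ) (motive := fun v => (x - S) ^ n *ᵥ v = 0)
      (GE_top x v) ?_ ?_ ?_
    · intro μ v hv
      have h1 : ∀ k : ℕ, (x - S) ^ k *ᵥ v = (x - μ • (1 : Matrix (Fin n) (Fin n) K)) ^ k *ᵥ v ∧
          (x - μ • (1 : Matrix (Fin n) (Fin n) K)) ^ k *ᵥ v ∈ GE x μ := by
        intro k
        induction k with
        | zero => exact ⟨by rw [pow_zero, pow_zero], by rw [pow_zero, Matrix.one_mulVec]; exact hv⟩
        | succ k ih =>
          obtain ⟨h2, h3⟩ := ih
          have h4 : (x - μ • (1 : Matrix (Fin n) (Fin n) K)) ^ (k + 1) *ᵥ v ∈ GE x μ := by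
            rw [pow_succ', ← Matrix.mulVec_mulVec]
            refine GE_comm ?_ h3
            rw [sub_mul, mul_sub, smul_mul_assoc, mul_smul_comm, one_mul, mul_one]
          refine ⟨?_, h4⟩
          rw [pow_succ', ← Matrix.mulVec_mulVec, h2, Matrix.sub_mulVec, hSv μ _ h3, pow_succ',
            ← Matrix.mulVec_mulVec, Matrix.sub_mulVec, Matrix.smul_mulVec, Matrix.one_mulVec]
          rfl
      rw [(h1 n).1]
      exact mem_GE_n hv
    · rw [Matrix.mulVec_zero]
    · intro u v hu hv
      rw [Matrix.mulVec_add, hu, hv, add_zero]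
  refine ⟨w, ?_, ?_⟩
  · intro hw
    apply hxn
    have h1 : S = 0 := by
      have h2 : (Matrix.diagonal fun j => id (w j)) = (0 : Matrix (Fin n) (Fin n) K) := by
        rw [hw]
        simp only [id_eq, Pi.zero_apply, Matrix.diagonal_zero]
      rw [h2, mul_zero] at hSP
      calc S = S * ((P : Matrix (Fin n) (Fin n) K) * Q) := by rw [hPQ, mul_one]
        _ = 0 := by rw [← mul_assoc, hSP, zero_mul]
    rw [h1, sub_zero] at hNn
    exact hNn
  intro f
  obtain ⟨D, hDc, hDv⟩ := exists_fun x f
  have hDa : D ∈ a := add_mem_a hG x hxa f D hDv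
  have hD0 : Hm s 0 D := by
    intro i j hij
    have h1 : (Matrix.diagonal fun i => (s i : K)) * x = x * Matrix.diagonal fun i => (s i : K) := by
      ext i j
      rw [Matrix.diagonal_mul, Matrix.mul_diagonal]
      by_cases h : x i j = 0
      · rw [h, mul_zero, zero_mul]
      · rw [sub_eq_zero.1 (hx0 i j h), mul_comm]
    have h2 := congrFun (congrFun (hDc _ h1) i) j
    rw [Matrix.diagonal_mul, Matrix.mul_diagonal] at h2
    have h3 : ((s i : K) - (s j : K)) * D i j = 0 := by linear_combination h2
    have h4 := (mul_eq_zero.1 h3).resolve_right hij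
    have h5 : ((s i - s j : ℤ) : K) = 0 := by
      push_cast
      exact h4
    exact Int.cast_eq_zero.1 h5
  have hDP := hcols D f hDv
  have hDx : D * x = x * D := (hDc x rfl).symm
  have hND : Commute (x - S) D := by
    rw [commute_iff_eq, sub_mul, mul_sub, hDx, hSc D hDx]
  -- the traces
  have hSD : S * D = (P : Matrix (Fin n) (Fin n) K) * Matrix.diagonal (fun j => w j * f (w j)) * Q := by
    calc S * D = S * D * ((P : Matrix (Fin n) (Fin n) K) * Q) := by rw [hPQ, mul_one]
      _ = S * (D * (P : Matrix (Fin n) (Fin n) K)) * Q := by simp only [mul_assoc]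
      _ = (S * (P : Matrix (Fin n) (Fin n) K)) * Matrix.diagonal (fun j => f (w j)) * Q := by
          rw [hDP]; simp only [mul_assoc]
      _ = _ := by
          rw [hSP, mul_assoc (P : Matrix (Fin n) (Fin n) K), Matrix.diagonal_mul_diagonal]
          rfl
  have htr : ∀ p : Fin n → K, (∀ i j, s i = s j → p i = p j) →
      (Matrix.diagonal p * (x * D)).trace = ∑ j, p j * (w j * f (w j)) := by
    intro p hp
    have hcomm : ∀ A : Matrix (Fin n) (Fin n) K, Hm s 0 A →
        Matrix.diagonal p * A = A * Matrix.diagonal p := by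
      intro A hA
      ext i j
      rw [Matrix.diagonal_mul, Matrix.mul_diagonal]
      by_cases h : A i j = 0
      · rw [h, mul_zero, zero_mul]
      · rw [hp i j (sub_eq_zero.1 (hA i j h)), mul_comm]
    have hpx := hcomm x hx0
    have hpS : Matrix.diagonal p * S = S * Matrix.diagonal p := hSc _ hpx
    have hpN : Commute (Matrix.diagonal p) (x - S) := by
      rw [commute_iff_eq, mul_sub, sub_mul, hpx, hpS]
    have hnil : IsNilpotent (Matrix.diagonal p * ((x - S) * D)) := by
      have h1 : Commute (Matrix.diagonal p * D) (x - S) := hpN.mul_left hND.symm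
      have h2 : Matrix.diagonal p * ((x - S) * D) = (x - S) * (Matrix.diagonal p * D) := by
        rw [← mul_assoc, hpN.eq, mul_assoc]
      rw [h2]
      exact (h1.symm).isNilpotent_mul_right hNn
    have h3 : Matrix.diagonal p * (x * D) =
        Matrix.diagonal p * ((x - S) * D) + Matrix.diagonal p * (S * D) := by
      rw [← mul_add, sub_mul, sub_add_cancel]
    rw [h3, Matrix.trace_add, (Matrix.isNilpotent_trace_of_isNilpotent hnil).eq_zero, zero_add, hSD]
    have hpP : Matrix.diagonal p * (P : Matrix (Fin n) (Fin n) K) =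
        (P : Matrix (Fin n) (Fin n) K) * Matrix.diagonal p := by
      apply hcomm
      intro i j hij
      rw [hPs i j hij, sub_self]
    have h4 : Matrix.diagonal p * ((P : Matrix (Fin n) (Fin n) K) *
        Matrix.diagonal (fun j => w j * f (w j)) * Q) = (P : Matrix (Fin n) (Fin n) K) *
        (Matrix.diagonal (fun j => p j * (w j * f (w j))) * Q) := by
      rw [mul_assoc, ← mul_assoc, hpP, mul_assoc, ← mul_assoc (Matrix.diagonal p),
        Matrix.diagonal_mul_diagonal]
    rw [h4, Matrix.trace_mul_comm, mul_assoc, hQP, mul_one, Matrix.trace_diagonal]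
  exact ⟨D, mem_gr.2 ⟨hDa, hD0⟩, htr⟩

open Tor BND92 in
/-- the trace over the piece `k` -/
theorem rep_piece {K : Type} [Field K] [CharZero K] [IsAlgClosed K] {n : ℕ} {ε : K}
    {ψ : Matrix (Fin n) (Fin n) K} {s : Fin n → ℤ}
    {a : Submodule K (Matrix (Fin n) (Fin n) K)} (hG : GrD ε ψ s a)
    (x : Matrix (Fin n) (Fin n) K) (hx : x ∈ gr s 0 a) (hxn : ¬ IsNilpotent x) :
    ∃ w : Fin n → K, w ≠ 0 ∧ ∀ f : K →+ K, ∃ D ∈ gr s 0 a,
      (x * D).trace = ∑ j, w j * f (w j) ∧ ∀ k : ℤ,
        (∑ i ∈ Finset.univ.filter (fun i => s i = k), (x * D) i i) =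
          ∑ j ∈ Finset.univ.filter (fun j => s j = k), w j * f (w j) := by
  classical
  obtain ⟨w, hw, h⟩ := rep_all hG x hx hxn
  refine ⟨w, hw, fun f => ?_⟩
  obtain ⟨D, hD, htr⟩ := h f
  refine ⟨D, hD, ?_, fun k => ?_⟩
  · have h1 := htr (fun _ => 1) (fun _ _ _ => rfl)
    rw [Matrix.diagonal_one, one_mul] at h1
    rw [h1]
    simp only [one_mul]
  · have h1 := htr (fun j => if s j = k then 1 else 0) (fun i j h => by simp only [h])
    have h2 : (∑ i ∈ Finset.univ.filter (fun i => s i = k), (x * D) i i) =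
        (Matrix.diagonal (fun j => if s j = k then (1 : K) else 0) * (x * D)).trace := by
      rw [Finset.sum_filter, Matrix.trace]
      refine Finset.sum_congr rfl fun i _ => ?_
      rw [Matrix.diag_apply, Matrix.diagonal_mul]
      by_cases h : s i = k
      · rw [if_pos h, if_pos h, one_mul]
      · rw [if_neg h, if_neg h, zero_mul]
    rw [h2, h1, Finset.sum_filter]
    refine Finset.sum_congr rfl fun j _ => ?_
    by_cases h : s j = k
    · rw [if_pos h, if_pos h, one_mul]
    · rw [if_neg h, if_neg h, zero_mul]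

theorem st_REP : ST_REP := by
  intro K _ _ _ n ε ψ s a hG x hx hxn
  obtain ⟨w, hw, h⟩ := rep_piece hG x hx hxn
  refine ⟨w, hw, fun f => ?_⟩
  obtain ⟨D, hD, h1, h2⟩ := h f
  exact ⟨D, hD, h1, h2 1⟩

end MT
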