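import Pool.Agent.Helper84.WD.TR2a
import Pool.Agent.Helper72.WD.TR2b

/-!
# TR2: a torus with two non-conjugate weights on the middle piece, or few elements
-/

set_option autoImplicit false

namespace MT

theorem st_TR2 : ST_TR2 := by
  intro K _ _ _ n ε ψ s a hG
  rcases tr2_part1 hG with h | h | ⟨D, hD, hDD, hng⟩
  · exact Or.inl h
  · right
    rw [h, finrank_bot]
    omega
  · right
    exact tr2_part2 st_TRC hG D hD hDD hng

end MT
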