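import Pool.Agent.Helper21.WD.StmtsV
import Pool.Agent.Helper84.WD.REP

/-!
# REPK: additive functions of an element of degree zero, with the traces on all the pieces
-/

set_option autoImplicit false

namespace MT

theorem st_REPK : ST_REPK := by
  intro K _ _ _ n ε ψ s a hG x hx hxn
  obtain ⟨w, hw, h⟩ := rep_piece hG x hx hxn
  refine ⟨w, hw, fun f => ?_⟩
  obtain ⟨D, hD, _, h2⟩ := h f
  exact ⟨D, hD, h2⟩

end MT
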