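import Pool.Agent.Helper3.WD.TRC

/-!
# TOR, part 1: an element of the middle piece which is not nilpotent
-/

set_option autoImplicit false

open Matrix

namespace MT

namespace Tor

attribute [local instance 100] LieRing.ofAssociativeRing

variable {K : Type} [Field K] {n : ℕ}

/-- the matrices which live on the middle piece -/
def OnMid (s : Fin n → ℤ) (z : Matrix (Fin n) (Fin n) K) : Prop :=
  ∀ i j, z i j ≠ 0 → s i = 0 ∧ s j = 0

/-- the elements of `a` which live on the middle piece -/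
def cL (s : Fin n → ℤ) (a : Submodule K (Matrix (Fin n) (Fin n) K)) (ha : Brk a) :
    LieSubalgebra K (Matrix (Fin n) (Fin n) K) where
  carrier := {z | z ∈ a ∧ OnMid s z}
  add_mem' := by
    rintro x y ⟨hx, hx'⟩ ⟨hy, hy'⟩
    refine ⟨a.add_mem hx hy, ?_⟩
    intro i j hij
    rw [Matrix.add_apply] at hij
    by_cases h : x i j = 0
    · rw [h, zero_add] at hij
      exact hy' i j hij
    · exact hx' i j h
  zero_mem' := ⟨a.zero_mem, fun i j h => absurd rfl h⟩
  smul_mem' := by
    rintro t x ⟨hx, hx'⟩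
    refine ⟨a.smul_mem t hx, ?_⟩
    intro i j hij
    rw [Matrix.smul_apply, smul_eq_mul] at hij
    exact hx' i j (right_ne_zero_of_mul hij)
  lie_mem' := by
    rintro x y ⟨hx, hx'⟩ ⟨hy, hy'⟩
    refine ⟨ha x hx y hy, ?_⟩
    intro i j hij
    have key : ∀ (x y : Matrix (Fin n) (Fin n) K), OnMid s x → OnMid s y → (x * y) i j ≠ 0 →
        s i = 0 ∧ s j = 0 := by
      intro x y hx hy h
      rw [Matrix.mul_apply] at h
      obtain ⟨k, -, hk⟩ := Finset.exists_ne_zero_of_sum_ne_zero h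
      exact ⟨(hx i k (left_ne_zero_of_mul hk)).1, (hy k j (right_ne_zero_of_mul hk)).2⟩
    rw [Ring.lie_def, Matrix.sub_apply] at hij
    by_cases h : (x * y) i j = 0
    · rw [h, zero_sub, neg_ne_zero] at hij
      exact key y x hy' hx' hij
    · exact key x y hx' hy' h

/-- the products of `k` elements -/
def pr (c : Set (Matrix (Fin n) (Fin n) K)) : ℕ → Submodule K (Fin n → K)
  | 0 => ⊤
  | k + 1 => Submodule.span K {u | ∃ z ∈ c, ∃ v ∈ pr c k, u = z *ᵥ v}

theorem pr_stable (c : Set (Matrix (Fin n) (Fin n) K)) (y : Matrix (Fin n) (Fin n) K)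
    (h : ∀ z ∈ c, y * z - z * y ∈ c) : ∀ (k : ℕ) (v : Fin n → K), v ∈ pr c k → y *ᵥ v ∈ pr c k := by
  intro k
  induction k with
  | zero => intro v _; exact Submodule.mem_top
  | succ k ih =>
    intro v hv
    refine Submodule.span_induction (p := fun v _ => y *ᵥ v ∈ pr c (k + 1)) ?_ ?_ ?_ ?_ hv
    · rintro _ ⟨z, hz, v, hv, rfl⟩
      have e : y *ᵥ (z *ᵥ v) = (y * z - z * y) *ᵥ v + z *ᵥ (y *ᵥ v) := by
        rw [Matrix.sub_mulVec, Matrix.mulVec_mulVec, Matrix.mulVec_mulVec, sub_add_cancel]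
      rw [e]
      exact Submodule.add_mem _ (Submodule.subset_span ⟨_, h z hz, v, hv, rfl⟩)
        (Submodule.subset_span ⟨z, hz, _, ih v hv, rfl⟩)
    · rw [Matrix.mulVec_zero]
      exact Submodule.zero_mem _
    · intro u v _ _ hu hv
      rw [Matrix.mulVec_add]
      exact Submodule.add_mem _ hu hv
    · intro t v _ hv
      rw [Matrix.mulVec_smul]
      exact Submodule.smul_mem _ t hv

theorem pr_nil (c : Set (Matrix (Fin n) (Fin n) K)) (y z : Matrix (Fin n) (Fin n) K)
    (h : ∀ z ∈ c, y * z - z * y ∈ c) (hz : z ∈ c) : ∀ (k : ℕ) (v : Fin n → K),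
      ((z * y) ^ k) *ᵥ v ∈ pr c k := by
  intro k
  induction k with
  | zero => intro v; exact Submodule.mem_top
  | succ k ih =>
    intro v
    have e : (z * y) ^ (k + 1) *ᵥ v = z *ᵥ (y *ᵥ ((z * y) ^ k *ᵥ v)) := by
      rw [pow_succ', ← Matrix.mulVec_mulVec, ← Matrix.mulVec_mulVec]
    rw [e]
    exact Submodule.subset_span ⟨z, hz, _, pr_stable c y h k _ (ih v), rfl⟩

/-- Engel's theorem -/
theorem engel (s : Fin n → ℤ) (a : Submodule K (Matrix (Fin n) (Fin n) K)) (ha : Brk a)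
    (h : ∀ z ∈ a, OnMid s z → IsNilpotent z) :
    ∃ k, pr {z | z ∈ a ∧ OnMid s z} k = ⊥ := by
  have hE : ∀ x : cL s a ha, LieModule.toEnd K (cL s a ha) (Fin n → K) x =
      Matrix.toLin' (x : Matrix (Fin n) (Fin n) K) := by
    intro x
    ext v i
    rfl
  have h1 : LieModule.IsNilpotent (cL s a ha) (Fin n → K) := by
    rw [LieModule.isNilpotent_iff_forall' (R := K)]
    intro x
    rw [hE x]
    have h2 := h x.1 x.2.1 x.2.2
    exact h2.map (Matrix.toLinAlgEquiv' : Matrix (Fin n) (Fin n) K ≃ₐ[K] _)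
  rw [LieModule.isNilpotent_iff K] at h1
  obtain ⟨k, hk⟩ := h1
  refine ⟨k, ?_⟩
  have h3 : ∀ k, pr {z | z ∈ a ∧ OnMid s z} k ≤
      (LieModule.lowerCentralSeries K (cL s a ha) (Fin n → K) k).toSubmodule := by
    intro k
    induction k with
    | zero => intro v _; exact LieSubmodule.mem_top v
    | succ k ih =>
      apply Submodule.span_le.2
      rintro _ ⟨z, hz, v, hv, rfl⟩
      rw [LieModule.lowerCentralSeries_succ]
      exact LieSubmodule.lie_mem_lie (I := (⊤ : LieIdeal K (cL s a ha)))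
        (x := (⟨z, hz⟩ : cL s a ha)) (LieSubmodule.mem_top _) (ih hv)
  rw [eq_bot_iff]
  intro v hv
  have h4 := h3 k hv
  rw [hk] at h4
  exact h4

end Tor

open Tor in
theorem tor_nonnil {K : Type} [Field K] [CharZero K] [IsAlgClosed K] {n : ℕ} {ε : K}
    {ψ : Matrix (Fin n) (Fin n) K} {s : Fin n → ℤ}
    {a : Submodule K (Matrix (Fin n) (Fin n) K)} (hG : GrD ε ψ s a)
    (hz : ∃ z ∈ a, z ≠ 0 ∧ OnMid s z) : ∃ W ∈ a, OnMid s W ∧ ¬ IsNilpotent W := by
  by_contra hcon
  push Not at hcon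
  obtain ⟨k, hk⟩ := engel s a hG.brk hcon
  obtain ⟨z, hza, hz0, hzm⟩ := hz
  apply hz0
  apply st_TRC K n ψ a hG.unit hG.brk hG.irr hG.iso z hza
  intro y hy
  have e : (z * y).trace = (z * cmp s 0 y).trace := by
    rw [Matrix.trace, Matrix.trace]
    apply Finset.sum_congr rfl
    intro i _
    rw [Matrix.diag_apply, Matrix.diag_apply, Matrix.mul_apply, Matrix.mul_apply]
    apply Finset.sum_congr rfl
    intro j _
    by_cases h : z i j = 0
    · rw [h, zero_mul, zero_mul]
    · obtain ⟨h1, h2⟩ := hzm i j h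
      congr 1
      rw [cmp, Matrix.of_apply, if_pos (by rw [h1, h2, sub_self])]
  rw [e]
  have hy' := hG.comp y hy 0
  have hst : ∀ w ∈ {z | z ∈ a ∧ OnMid s z}, cmp s 0 y * w - w * cmp s 0 y ∈
      {z | z ∈ a ∧ OnMid s z} := by
    rintro w ⟨hw, hwm⟩
    refine ⟨hG.brk _ hy' _ hw, ?_⟩
    intro i j hij
    rw [Matrix.sub_apply] at hij
    by_cases h : (cmp s 0 y * w) i j = 0
    · rw [h, zero_sub, neg_ne_zero, Matrix.mul_apply] at hij
      obtain ⟨l, -, hl⟩ := Finset.exists_ne_zero_of_sum_ne_zero hij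
      have h1 := hwm i l (left_ne_zero_of_mul hl)
      have h2 := right_ne_zero_of_mul hl
      rw [cmp, Matrix.of_apply] at h2
      have h3 : s l - s j = 0 := by
        by_contra h4
        exact h2 (if_neg h4)
      refine ⟨h1.1, ?_⟩
      rw [h1.2] at h3
      omega
    · rw [Matrix.mul_apply] at h
      obtain ⟨l, -, hl⟩ := Finset.exists_ne_zero_of_sum_ne_zero h
      have h1 := hwm l j (right_ne_zero_of_mul hl)
      have h2 := left_ne_zero_of_mul hl
      rw [cmp, Matrix.of_apply] at h2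
      have h3 : s i - s l = 0 := by
        by_contra h4
        exact h2 (if_neg h4)
      refine ⟨?_, h1.2⟩
      rw [h1.1] at h3
      omega
  have hnil : IsNilpotent (z * cmp s 0 y) := by
    refine ⟨k, ?_⟩
    apply Matrix.toLin'.injective
    apply LinearMap.ext
    intro v
    have h1 := pr_nil {z | z ∈ a ∧ OnMid s z} (cmp s 0 y) z hst ⟨hza, hzm⟩ k v
    rw [hk, Submodule.mem_bot] at h1
    rw [Matrix.toLin'_apply, h1, map_zero, LinearMap.zero_apply]
  exact (Matrix.isNilpotent_trace_of_isNilpotent hnil).eq_zero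

end MT
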