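import Pool.Agent.Helper84.WD.TORa
import Mathlib.LinearAlgebra.Eigenspace.Triangularizable
import Mathlib.RingTheory.DedekindDomain.Ideal.Lemmas

/-!
# TOR, part 2: additive functions of the generalised eigenvalues
-/

set_option autoImplicit false

open Matrix Polynomial

namespace MT

namespace Tor

variable {K : Type} [Field K] {n : ℕ}

/-- the generalised eigenspaces -/
def GE (W : Matrix (Fin n) (Fin n) K) (μ : K) : Submodule K (Fin n → K) :=
  Module.End.maxGenEigenspace (Matrix.toLin' W) μ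

theorem mem_GE {W : Matrix (Fin n) (Fin n) K} {μ : K} {v : Fin n → K} :
    v ∈ GE W μ ↔ ∃ k : ℕ, (W - μ • (1 : Matrix (Fin n) (Fin n) K)) ^ k *ᵥ v = 0 := by
  have e1 : ((Matrix.toLin' W) - μ • (1 : Module.End K (Fin n → K))) =
      Matrix.toLin' (W - μ • (1 : Matrix (Fin n) (Fin n) K)) := by
    rw [map_sub, map_smul]
    congr 2
    exact Matrix.toLin'_one.symm
  rw [GE, Module.End.mem_maxGenEigenspace, e1]
  simp only [← Matrix.toLin'_pow, Matrix.toLin'_apply]

theorem mem_GE_n {W : Matrix (Fin n) (Fin n) K} {μ : K} {v : Fin n → K} (h : v ∈ GE W μ) :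
    (W - μ • (1 : Matrix (Fin n) (Fin n) K)) ^ n *ᵥ v = 0 := by
  have e1 : ((Matrix.toLin' W) - μ • (1 : Module.End K (Fin n → K))) =
      Matrix.toLin' (W - μ • (1 : Matrix (Fin n) (Fin n) K)) := by
    rw [map_sub, map_smul]
    congr 2
    exact Matrix.toLin'_one.symm
  rw [GE, Module.End.maxGenEigenspace_eq_genEigenspace_finrank, Module.finrank_fin_fun,
    Module.End.mem_genEigenspace_nat, LinearMap.mem_ker, e1, ← Matrix.toLin'_pow,
    Matrix.toLin'_apply] at h
  exact h

theorem GE_comm {W S : Matrix (Fin n) (Fin n) K} (h : S * W = W * S) {μ : K} {v : Fin n → K}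
    (hv : v ∈ GE W μ) : S *ᵥ v ∈ GE W μ := by
  rw [mem_GE] at hv ⊢
  obtain ⟨k, hk⟩ := hv
  refine ⟨k, ?_⟩
  have h1 : Commute (W - μ • (1 : Matrix (Fin n) (Fin n) K)) S := by
    rw [commute_iff_eq, sub_mul, mul_sub, h, smul_mul_assoc, mul_smul_comm, one_mul, mul_one]
  rw [Matrix.mulVec_mulVec, (h1.pow_left k).eq, ← Matrix.mulVec_mulVec, hk, Matrix.mulVec_zero]

theorem GE_top [IsAlgClosed K] (W : Matrix (Fin n) (Fin n) K) (v : Fin n → K) :
    v ∈ ⨆ μ, GE W μ := by
  have h := Module.End.iSup_maxGenEigenspace_eq_top (Matrix.toLin' W)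
  change v ∈ ⨆ μ, Module.End.maxGenEigenspace (Matrix.toLin' W) μ
  rw [h]
  exact Submodule.mem_top

theorem GE_fin (W : Matrix (Fin n) (Fin n) K) : {μ | GE W μ ≠ ⊥}.Finite :=
  WellFoundedGT.finite_ne_bot_of_iSupIndep
    (Module.End.independent_maxGenEigenspace (Matrix.toLin' W))

/-- an eigenvalue -/
theorem GE_ne [IsAlgClosed K] (W : Matrix (Fin n) (Fin n) K) (hW : ¬ IsNilpotent W) :
    ∃ ζ : K, ζ ≠ 0 ∧ GE W ζ ≠ ⊥ := by
  by_contra hcon
  push Not at hcon
  apply hW
  refine ⟨n, ?_⟩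
  apply Matrix.toLin'.injective
  apply LinearMap.ext
  intro v
  rw [Matrix.toLin'_apply, map_zero, LinearMap.zero_apply]
  refine Submodule.iSup_induction (fun μ => GE W μ) (motive := fun v => W ^ n *ᵥ v = 0)
    (GE_top W v) ?_ ?_ ?_
  · intro μ v hv
    by_cases h : μ = 0
    · subst h
      have := mem_GE_n hv
      rwa [zero_smul, sub_zero] at this
    · rw [hcon μ h, Submodule.mem_bot] at hv
      rw [hv, Matrix.mulVec_zero]
  · rw [Matrix.mulVec_zero]
  · intro u v hu hv
    rw [Matrix.mulVec_add, hu, hv, add_zero]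

/-- products of generalised eigenvectors -/
theorem GE_mul (W : Matrix (Fin n) (Fin n) K) (μ τ : K)
    (T : Module.End K (Matrix (Fin n) (Fin n) K)) (hT : ∀ x, T x = W * x - x * W) :
    ∀ (N j k : ℕ) (x : Matrix (Fin n) (Fin n) K) (v : Fin n → K), j + k = N →
      ((T - τ • (1 : Module.End K (Matrix (Fin n) (Fin n) K))) ^ j) x = 0 →
      (W - μ • (1 : Matrix (Fin n) (Fin n) K)) ^ k *ᵥ v = 0 →
      (W - (μ + τ) • (1 : Matrix (Fin n) (Fin n) K)) ^ N *ᵥ (x *ᵥ v) = 0 := by
  intro N
  induction N with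
  | zero =>
    intro j k x v hjk hx hv
    obtain ⟨rfl, rfl⟩ : j = 0 ∧ k = 0 := by omega
    rw [pow_zero, Module.End.one_apply] at hx
    rw [hx, Matrix.zero_mulVec, Matrix.mulVec_zero]
  | succ N ih =>
    intro j k x v hjk hx hv
    rcases j with _ | j
    · rw [pow_zero, Module.End.one_apply] at hx
      rw [hx, Matrix.zero_mulVec, Matrix.mulVec_zero]
    rcases k with _ | k
    · rw [pow_zero, Matrix.one_mulVec] at hv
      rw [hv, Matrix.mulVec_zero, Matrix.mulVec_zero]
    rw [pow_succ, Module.End.mul_apply] at hx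
    rw [pow_succ, ← Matrix.mulVec_mulVec] at hv
    have e : (W - (μ + τ) • (1 : Matrix (Fin n) (Fin n) K)) *ᵥ (x *ᵥ v) =
        ((T - τ • (1 : Module.End K (Matrix (Fin n) (Fin n) K))) x) *ᵥ v +
          x *ᵥ ((W - μ • (1 : Matrix (Fin n) (Fin n) K)) *ᵥ v) := by
      rw [LinearMap.sub_apply, LinearMap.smul_apply, Module.End.one_apply, hT,
        Matrix.sub_mulVec W, Matrix.smul_mulVec, Matrix.one_mulVec, Matrix.sub_mulVec W,
        Matrix.smul_mulVec, Matrix.one_mulVec, Matrix.sub_mulVec, Matrix.sub_mulVec,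
        Matrix.smul_mulVec, Matrix.mulVec_sub, Matrix.mulVec_smul, add_smul,
        Matrix.mulVec_mulVec, Matrix.mulVec_mulVec]
      abel
    rw [pow_succ, ← Matrix.mulVec_mulVec, e, Matrix.mulVec_add,
      ih j (k + 1) _ _ (by omega) hx (by rw [pow_succ, ← Matrix.mulVec_mulVec]; exact hv),
      ih (j + 1) k _ _ (by omega) (by rw [pow_succ, Module.End.mul_apply]; exact hx) hv, add_zero]

/-- orthogonality of generalised eigenvectors -/
theorem GE_orth (W ψ : Matrix (Fin n) (Fin n) K) (hW : W.transpose * ψ + ψ * W = 0) (μ ν : K)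
    (hμν : μ + ν ≠ 0) : ∀ (N j k : ℕ) (u v : Fin n → K), j + k = N →
      (W - μ • (1 : Matrix (Fin n) (Fin n) K)) ^ j *ᵥ u = 0 →
      (W - ν • (1 : Matrix (Fin n) (Fin n) K)) ^ k *ᵥ v = 0 → u ⬝ᵥ (ψ *ᵥ v) = 0 := by
  intro N
  induction N with
  | zero =>
    intro j k u v hjk hu hv
    obtain ⟨rfl, rfl⟩ : j = 0 ∧ k = 0 := by omega
    rw [pow_zero, Matrix.one_mulVec] at hu
    rw [hu, zero_dotProduct]
  | succ N ih =>
    intro j k u v hjk hu hv
    rcases j with _ | j
    · rw [pow_zero, Matrix.one_mulVec] at hu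
      rw [hu, zero_dotProduct]
    rcases k with _ | k
    · rw [pow_zero, Matrix.one_mulVec] at hv
      rw [hv, Matrix.mulVec_zero, dotProduct_zero]
    have hu1 := hu
    have hv1 := hv
    rw [pow_succ, ← Matrix.mulVec_mulVec] at hu1 hv1
    have h1 := ih j (k + 1) _ v (by omega) hu1 hv
    have h2 := ih (j + 1) k u _ (by omega) hu hv1
    have h3 : (W *ᵥ u) ⬝ᵥ (ψ *ᵥ v) + u ⬝ᵥ (ψ *ᵥ (W *ᵥ v)) = 0 := by
      have h4 : (W *ᵥ u) ⬝ᵥ (ψ *ᵥ v) = u ⬝ᵥ ((W.transpose * ψ) *ᵥ v) := by
        rw [← Matrix.mulVec_mulVec, Matrix.dotProduct_mulVec u, Matrix.vecMul_transpose]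
      rw [h4, Matrix.mulVec_mulVec, ← dotProduct_add, ← Matrix.add_mulVec, hW,
        Matrix.zero_mulVec, dotProduct_zero]
    rw [Matrix.sub_mulVec, Matrix.smul_mulVec, Matrix.one_mulVec, sub_dotProduct,
      smul_dotProduct, smul_eq_mul] at h1
    rw [Matrix.sub_mulVec, Matrix.smul_mulVec, Matrix.one_mulVec, Matrix.mulVec_sub,
      Matrix.mulVec_smul, dotProduct_sub, dotProduct_smul, smul_eq_mul] at h2
    have h5 : (μ + ν) * (u ⬝ᵥ (ψ *ᵥ v)) = 0 := by
      linear_combination h3 - h1 - h2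
    exact (mul_eq_zero.1 h5).resolve_left hμν

/-- a polynomial in `W` which is a given scalar on each generalised eigenspace -/
theorem exists_fun (W : Matrix (Fin n) (Fin n) K) (c : K → K) :
    ∃ D : Matrix (Fin n) (Fin n) K, (∀ S : Matrix (Fin n) (Fin n) K, S * W = W * S →
      S * D = D * S) ∧ ∀ μ, ∀ v ∈ GE W μ, D *ᵥ v = c μ • v := by
  classical
  set E : Finset K := (GE_fin W).toFinset with hE
  obtain ⟨p, hp⟩ := IsDedekindDomain.exists_forall_sub_mem_ideal (s := E)
    (fun μ : K => Ideal.span {(X - C μ : K[X])}) (fun _ => n)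
    (by
      intro μ _
      rw [Ideal.prime_span_singleton_iff]
      exact Polynomial.prime_X_sub_C μ)
    (by
      intro μ _ ν _ hne h
      rw [Ideal.span_singleton_eq_span_singleton] at h
      apply hne
      have h1 := Polynomial.eq_of_monic_of_associated (Polynomial.monic_X_sub_C μ)
        (Polynomial.monic_X_sub_C ν) h
      have h2 := congrArg (fun q : K[X] => q.eval μ) h1
      simp only [eval_sub, eval_X, eval_C, sub_self] at h2
      exact (sub_eq_zero.1 h2.symm))
    (fun μ => C (c μ))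
  refine ⟨aeval W p, ?_, ?_⟩
  · intro S hS
    have : Commute S (aeval W p) := by
      refine Polynomial.induction_on p ?_ ?_ ?_
      · intro a
        rw [aeval_C]
        exact (Algebra.commutes a S).symm
      · intro p q hp hq
        rw [map_add]
        exact hp.add_right hq
      · intro k a _
        rw [map_mul, map_pow, aeval_C, aeval_X]
        exact Commute.mul_right (Algebra.commutes a S).symm ((show Commute S W from hS).pow_right _)
    exact this
  · intro μ v hv
    by_cases hμ : μ ∈ E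
    · have h1 := hp μ hμ
      rw [Ideal.span_singleton_pow, Ideal.mem_span_singleton] at h1
      obtain ⟨q, hq⟩ := h1
      have h2 : p = C (c μ) + q * (X - C μ) ^ n := by
        rw [mul_comm q, ← hq]
        ring
      rw [h2, map_add, aeval_C, map_mul, map_pow, map_sub, aeval_X, aeval_C, Matrix.add_mulVec,
        Algebra.algebraMap_eq_smul_one, Algebra.algebraMap_eq_smul_one, Matrix.smul_mulVec,
        Matrix.one_mulVec, ← Matrix.mulVec_mulVec, mem_GE_n hv, Matrix.mulVec_zero, add_zero]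
    · have h1 : GE W μ = ⊥ := by
        by_contra h2
        exact hμ ((GE_fin W).mem_toFinset.2 h2)
      rw [h1, Submodule.mem_bot] at hv
      rw [hv, Matrix.mulVec_zero, smul_zero]

end Tor

end MT
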