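import Pool.Agent.Helper84.WD.TOR
import Pool.Agent.Helper21.WD.Stmts2

/-!
# TR2, part 1: the torus given by an additive function
-/

set_option autoImplicit false

open Matrix

namespace MT

open Tor in
theorem tor_gen {K : Type} [Field K] [CharZero K] [IsAlgClosed K] {n : ℕ} {ε : K}
    {ψ : Matrix (Fin n) (Fin n) K} {s : Fin n → ℤ}
    {a : Submodule K (Matrix (Fin n) (Fin n) K)} (hG : GrD ε ψ s a)
    {W : Matrix (Fin n) (Fin n) K} (hWa : W ∈ a) (hWm : OnMid s W) (φ0 : Module.Dual ℚ K) :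
    ∃ (P : Matrix.GeneralLinearGroup (Fin n) K) (d : Fin n → ℤ) (D : Matrix (Fin n) (Fin n) K)
      (b : ℤ), b ≠ 0 ∧ (∀ i j, (P : Matrix (Fin n) (Fin n) K) i j ≠ 0 → s i = s j) ∧
      (∀ j : Fin n, s j ≠ 0 → (fun i => (P : Matrix (Fin n) (Fin n) K) i j) = Pi.single j 1) ∧
      (∀ i, s i ≠ 0 → d i = 0) ∧ D ∈ a ∧
      D * (P : Matrix (Fin n) (Fin n) K) =
        (P : Matrix (Fin n) (Fin n) K) * Matrix.diagonal (fun j => (d j : K)) ∧
      (∀ S : Matrix (Fin n) (Fin n) K, S * W = W * S → S * D = D * S) ∧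
      ∀ μ, ∀ v ∈ GE W μ, D *ᵥ v = ((((b : ℚ) * φ0 μ : ℚ)) : K) • v := by
  classical
  set E : Finset K := (GE_fin W).toFinset with hE
  have hmemE : ∀ μ, GE W μ ≠ ⊥ → μ ∈ E := fun μ h => (GE_fin W).mem_toFinset.2 h
  obtain ⟨b, hb⟩ := IsLocalization.exist_integer_multiples_of_finset (nonZeroDivisors ℤ)
    (E.image φ0)
  have hb0 : (b : ℤ) ≠ 0 := nonZeroDivisors.ne_zero b.2
  set φ : K → ℚ := fun μ => ((b : ℤ) : ℚ) * φ0 μ with hφ
  have hadd : ∀ x y, φ (x + y) = φ x + φ y := by
    intro x y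
    simp only [hφ, map_add, mul_add]
  have hzero : φ 0 = 0 := by
    simp only [hφ, map_zero, mul_zero]
  have hint : ∀ μ, ∃ m : ℤ, μ ∈ E → (m : ℚ) = φ μ := by
    intro μ
    by_cases h : μ ∈ E
    · obtain ⟨m, hm⟩ := hb (φ0 μ) (Finset.mem_image_of_mem _ h)
      refine ⟨m, fun _ => ?_⟩
      simp only [hφ]
      have h1 : (m : ℚ) = (b : ℤ) • φ0 μ := hm
      rw [h1, zsmul_eq_mul]
    · exact ⟨0, fun h' => absurd h' h⟩
  choose dd hdd using hint
  obtain ⟨D, hDc, hDv⟩ := exists_fun W (fun μ => ((φ μ : ℚ) : K))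
  -- skewness
  have hskew : D.transpose * ψ + ψ * D = 0 := by
    have key : ∀ u v : Fin n → K, u ⬝ᵥ ((D.transpose * ψ + ψ * D) *ᵥ v) = 0 := by
      have e0 : ∀ u v : Fin n → K, u ⬝ᵥ ((D.transpose * ψ + ψ * D) *ᵥ v) =
          (D *ᵥ u) ⬝ᵥ (ψ *ᵥ v) + u ⬝ᵥ (ψ *ᵥ (D *ᵥ v)) := by
        intro u v
        have h4 : (D *ᵥ u) ⬝ᵥ (ψ *ᵥ v) = u ⬝ᵥ ((D.transpose * ψ) *ᵥ v) := by
          rw [← Matrix.mulVec_mulVec, Matrix.dotProduct_mulVec u, Matrix.vecMul_transpose]
        rw [h4, Matrix.mulVec_mulVec, ← dotProduct_add, ← Matrix.add_mulVec]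
      intro u
      refine Submodule.iSup_induction (fun μ => GE W μ)
        (motive := fun u => ∀ v : Fin n → K, u ⬝ᵥ ((D.transpose * ψ + ψ * D) *ᵥ v) = 0)
        (GE_top W u) ?_ ?_ ?_
      · intro μ u hu v
        refine Submodule.iSup_induction (fun μ => GE W μ)
          (motive := fun v => u ⬝ᵥ ((D.transpose * ψ + ψ * D) *ᵥ v) = 0)
          (GE_top W v) ?_ ?_ ?_
        · intro ν v hv
          rw [e0, hDv μ u hu, hDv ν v hv, smul_dotProduct, Matrix.mulVec_smul, dotProduct_smul,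
            smul_eq_mul, smul_eq_mul, ← add_mul]
          by_cases h : μ + ν = 0
          · have h1 : φ μ + φ ν = 0 := by rw [← hadd, h, hzero]
            have h2 : ((φ μ : ℚ) : K) + ((φ ν : ℚ) : K) = 0 := by
              rw [← Rat.cast_add, h1, Rat.cast_zero]
            rw [h2, zero_mul]
          · rw [GE_orth W ψ (hG.iso W hWa) μ ν h (n + n) n n u v rfl (mem_GE_n hu) (mem_GE_n hv),
              mul_zero]
        · rw [Matrix.mulVec_zero, dotProduct_zero]
        · intro v v' hv hv'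
          rw [Matrix.mulVec_add, dotProduct_add, hv, hv', add_zero]
      · intro v
        rw [zero_dotProduct]
      · intro u u' hu hu' v
        rw [add_dotProduct, hu, hu', add_zero]
    ext i j
    have h1 := key (Pi.single i 1) (Pi.single j 1)
    simpa using h1
  -- `D` normalises `a`
  have hnorm : ∀ A ∈ a, D * A - A * D ∈ a := by
    set T : Module.End K (Matrix (Fin n) (Fin n) K) :=
      (LinearMap.mulLeft K W) - (LinearMap.mulRight K W) with hT
    have hTx : ∀ x, T x = W * x - x * W := by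
      intro x
      simp [hT]
    have hTa : ∀ x ∈ a, T x ∈ a := by
      intro x hx
      rw [hTx]
      exact hG.brk W hWa x hx
    intro A hA
    have h1 : A ∈ a ⊓ ⨆ τ, T.genEigenspace τ ⊤ := by
      refine ⟨hA, ?_⟩
      have h2 := Module.End.iSup_maxGenEigenspace_eq_top T
      have h3 : (⨆ τ, T.genEigenspace τ ⊤) = ⊤ := h2
      rw [h3]
      exact Submodule.mem_top
    rw [Submodule.inf_iSup_genEigenspace hTa ⊤] at h1
    refine Submodule.iSup_induction (fun τ => a ⊓ T.genEigenspace τ ⊤)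
      (motive := fun x => D * x - x * D ∈ a) h1 ?_ ?_ ?_
    · rintro τ x ⟨hx, hxT⟩
      have hxT' : x ∈ T.maxGenEigenspace τ := hxT
      rw [Module.End.mem_maxGenEigenspace] at hxT'
      obtain ⟨k, hk⟩ := hxT'
      have e : D * x - x * D = ((φ τ : ℚ) : K) • x := by
        apply Matrix.toLin'.injective
        apply LinearMap.ext
        intro v
        rw [Matrix.toLin'_apply, Matrix.toLin'_apply]
        refine Submodule.iSup_induction (fun μ => GE W μ)
          (motive := fun v => (D * x - x * D) *ᵥ v = (((φ τ : ℚ) : K) • x) *ᵥ v)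
          (GE_top W v) ?_ ?_ ?_
        · intro μ v hv
          have hxv : x *ᵥ v ∈ GE W (μ + τ) :=
            mem_GE.2 ⟨k + n, GE_mul W μ τ T hTx (k + n) k n x v rfl hk (mem_GE_n hv)⟩
          rw [Matrix.sub_mulVec, ← Matrix.mulVec_mulVec, ← Matrix.mulVec_mulVec, hDv _ _ hxv,
            hDv _ _ hv, Matrix.mulVec_smul, Matrix.smul_mulVec, hadd, Rat.cast_add, add_smul,
            add_sub_cancel_left]
        · rw [Matrix.mulVec_zero, Matrix.mulVec_zero]
        · intro u v hu hv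
          rw [Matrix.mulVec_add, Matrix.mulVec_add, hu, hv]
      rw [e]
      exact a.smul_mem _ hx
    · rw [mul_zero, zero_mul, sub_zero]
      exact a.zero_mem
    · intro x y hx hy
      have e : D * (x + y) - (x + y) * D = (D * x - x * D) + (D * y - y * D) := by
        rw [mul_add, add_mul]
        abel
      rw [e]
      exact a.add_mem hx hy
  have hDa : D ∈ a := st_DRV K n ψ a hG.unit hG.brk hG.irr hG.iso D hskew hnorm
  -- the basis
  obtain ⟨bb, m, hm⟩ := mid_basis s W hWm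
  obtain ⟨P, hPs, hPb, hPo⟩ := mid_P s bb
  set d : Fin n → ℤ := fun j => if h : s j = 0 then dd (m ⟨j, h⟩) else 0 with hd
  have hDP : D * (P : Matrix (Fin n) (Fin n) K) =
      (P : Matrix (Fin n) (Fin n) K) * Matrix.diagonal (fun j => (d j : K)) := by
    ext i j
    have e1 : (D * (P : Matrix (Fin n) (Fin n) K)) i j =
        (D *ᵥ (fun i => (P : Matrix (Fin n) (Fin n) K) i j)) i := by
      rw [Matrix.mul_apply]
      rfl
    rw [e1, Matrix.mul_diagonal]
    by_cases h : s j = 0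
    · have h2 := hPb j h
      have h3 := congrFun h2 i
      change (P : Matrix (Fin n) (Fin n) K) i j = _ at h3
      rw [h2, hDv _ _ (hm ⟨j, h⟩), h3, Pi.smul_apply, smul_eq_mul, mul_comm]
      congr 1
      have h4 : m ⟨j, h⟩ ∈ E := by
        apply hmemE
        intro h5
        have h6 := hm ⟨j, h⟩
        rw [h5, Submodule.mem_bot] at h6
        apply bb.ne_zero ⟨j, h⟩
        funext l
        have h7 := congrFun h6 l
        rw [ex_of s _ l l.2] at h7
        exact h7
      have h5 : d j = dd (m ⟨j, h⟩) := by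
        simp only [hd]
        rw [dif_pos h]
      rw [h5]
      have h6 := hdd _ h4
      rw [← h6, Rat.cast_intCast]
    · have h2 := hPo j h
      have h5 : d j = 0 := by
        simp only [hd]
        rw [dif_neg h]
      have h6 : (Pi.single j 1 : Fin n → K) ∈ GE W 0 := by
        rw [mem_GE]
        refine ⟨1, ?_⟩
        rw [zero_smul, sub_zero, pow_one]
        funext l
        have h7 : W l j = 0 := by
          by_contra h8
          exact h (hWm l j h8).2
        simpa using h7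
      rw [h2, hDv _ _ h6, hzero, Rat.cast_zero, zero_smul, h5, Int.cast_zero, mul_zero,
        Pi.zero_apply]
  refine ⟨P, d, D, b, hb0, hPs, hPo, ?_, hDa, hDP, hDc, hDv⟩
  intro i hi
  simp only [hd]
  rw [dif_neg hi]

namespace Tor

variable {K : Type} [Field K] {n : ℕ}

theorem col_eq (P D : Matrix (Fin n) (Fin n) K) (d : Fin n → ℤ)
    (h : D * P = P * Matrix.diagonal (fun j => (d j : K))) (j : Fin n) :
    D *ᵥ (fun i => P i j) = (d j : K) • (fun i => P i j) := by
  funext i
  have h1 := congrFun (congrFun h i) j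
  rw [Matrix.mul_diagonal, Matrix.mul_apply] at h1
  rw [Pi.smul_apply, smul_eq_mul, mul_comm]
  exact h1

theorem PPi (P : Matrix.GeneralLinearGroup (Fin n) K) :
    (P : Matrix (Fin n) (Fin n) K) *
      ((P⁻¹ : Matrix.GeneralLinearGroup (Fin n) K) : Matrix (Fin n) (Fin n) K) = 1 := by
  rw [← Units.val_mul, mul_inv_cancel, Units.val_one]

theorem PiP (P : Matrix.GeneralLinearGroup (Fin n) K) :
    ((P⁻¹ : Matrix.GeneralLinearGroup (Fin n) K) : Matrix (Fin n) (Fin n) K) *
      (P : Matrix (Fin n) (Fin n) K) = 1 := by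
  rw [← Units.val_mul, inv_mul_cancel, Units.val_one]

theorem Pcol_ne (P : Matrix.GeneralLinearGroup (Fin n) K) (j : Fin n) :
    (fun i => (P : Matrix (Fin n) (Fin n) K) i j) ≠ 0 := by
  intro h
  have h1 : (P : Matrix (Fin n) (Fin n) K) *ᵥ (Pi.single j 1) = 0 := by
    rw [← h]
    funext i
    simp
  have h2 := congrArg (fun v => ((P⁻¹ : Matrix.GeneralLinearGroup (Fin n) K) :
    Matrix (Fin n) (Fin n) K) *ᵥ v) h1
  simp only [Matrix.mulVec_mulVec, Matrix.mulVec_zero, PiP, Matrix.one_mulVec] at h2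
  have h3 := congrFun h2 j
  rw [Pi.single_eq_same, Pi.zero_apply] at h3
  exact one_ne_zero h3

/-- the eigenvalues on the middle piece -/
theorem eig_mid (P : Matrix.GeneralLinearGroup (Fin n) K) (D : Matrix (Fin n) (Fin n) K)
    (s d : Fin n → ℤ)
    (h : D * (P : Matrix (Fin n) (Fin n) K) =
      (P : Matrix (Fin n) (Fin n) K) * Matrix.diagonal (fun j => (d j : K)))
    (hPo : ∀ j : Fin n, s j ≠ 0 →
      (fun i => (P : Matrix (Fin n) (Fin n) K) i j) = Pi.single j 1)
    (u : Fin n → K) (hu : u ≠ 0) (hus : ∀ j, u j ≠ 0 → s j = 0) (c : K) (hD : D *ᵥ u = c • u) :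
    ∃ i, s i = 0 ∧ (d i : K) = c := by
  classical
  set u' : Fin n → K := ((P⁻¹ : Matrix.GeneralLinearGroup (Fin n) K) :
    Matrix (Fin n) (Fin n) K) *ᵥ u with hu'
  have h1 : (P : Matrix (Fin n) (Fin n) K) *ᵥ u' = u := by
    rw [hu', Matrix.mulVec_mulVec, PPi, Matrix.one_mulVec]
  have h2 : Matrix.diagonal (fun j => (d j : K)) *ᵥ u' = c • u' := by
    have h3 : (P : Matrix (Fin n) (Fin n) K) *ᵥ (Matrix.diagonal (fun j => (d j : K)) *ᵥ u') =
        c • u := by
      rw [Matrix.mulVec_mulVec, ← h, ← Matrix.mulVec_mulVec, h1, hD]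
    have h4 := congrArg (fun v => ((P⁻¹ : Matrix.GeneralLinearGroup (Fin n) K) :
      Matrix (Fin n) (Fin n) K) *ᵥ v) h3
    simp only [Matrix.mulVec_smul] at h4
    rw [Matrix.mulVec_mulVec, PiP, Matrix.one_mulVec] at h4
    exact h4
  obtain ⟨i, hi, hi0⟩ : ∃ i, s i = 0 ∧ u' i ≠ 0 := by
    by_contra hcon
    push Not at hcon
    apply hu
    have h5 : ∀ i, s i ≠ 0 → u i = u' i := by
      intro i hi
      rw [← h1, Matrix.mulVec, dotProduct, Finset.sum_eq_single i]
      · have h6 := congrFun (hPo i hi) i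
        simp only [Pi.single_eq_same] at h6
        rw [h6, one_mul]
      · intro j _ hji
        by_cases hj : s j = 0
        · rw [hcon j hj, mul_zero]
        · have h6 := congrFun (hPo j hj) i
          rw [Pi.single_eq_of_ne (Ne.symm hji)] at h6
          rw [h6, zero_mul]
      · intro h7
        exact absurd (Finset.mem_univ i) h7
    have h6 : u' = 0 := by
      funext i
      by_cases hi : s i = 0
      · exact hcon i hi
      · rw [← h5 i hi, Pi.zero_apply]
        by_contra h7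
        exact hi (hus i h7)
    rw [← h1, h6, Matrix.mulVec_zero]
  refine ⟨i, hi, ?_⟩
  have h7 := congrFun h2 i
  rw [Matrix.mulVec_diagonal, Pi.smul_apply, smul_eq_mul] at h7
  exact mul_right_cancel₀ hi0 h7

end Tor

open Tor in
/-- part (1) of TR2 -/
theorem tr2_part1 {K : Type} [Field K] [CharZero K] [IsAlgClosed K] {n : ℕ} {ε : K}
    {ψ : Matrix (Fin n) (Fin n) K} {s : Fin n → ℤ}
    {a : Submodule K (Matrix (Fin n) (Fin n) K)} (hG : GrD ε ψ s a) :
    (∃ (P : Matrix.GeneralLinearGroup (Fin n) K) (d : Fin n → ℤ),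
      (∀ i j, (P : Matrix (Fin n) (Fin n) K) i j ≠ 0 → s i = s j) ∧
      (∃ i j, s i = 0 ∧ s j = 0 ∧ d i ≠ d j ∧ d i + d j ≠ 0) ∧ (∀ i, s i ≠ 0 → d i = 0) ∧
      (P : Matrix (Fin n) (Fin n) K) * Matrix.diagonal (fun j => (d j : K)) *
        ((P⁻¹ : Matrix.GeneralLinearGroup (Fin n) K) : Matrix (Fin n) (Fin n) K) ∈ a) ∨
    Mid0 s a = ⊥ ∨ ∃ D ∈ Mid0 s a,
      D * D = Matrix.diagonal (fun i => if s i = 0 then (1 : K) else 0) ∧
      ∀ W ∈ Mid0 s a, ∀ z x : K, ∀ u v : Fin n → K, u ≠ 0 → v ≠ 0 → (∀ j, u j ≠ 0 → s j = 0) →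
        (∀ j, v j ≠ 0 → s j = 0) → W.mulVec u = z • u → W.mulVec v = x • v → z = x ∨ z = -x := by
  classical
  by_cases hz : ∃ z ∈ a, z ≠ 0 ∧ OnMid s z
  swap
  · right; left
    rw [eq_bot_iff]
    rintro z ⟨hza, hzm⟩
    rw [Submodule.mem_bot]
    by_contra h0
    exact hz ⟨z, hza, h0, hzm⟩
  by_cases hng : ∀ W ∈ Mid0 s a, ∀ z x : K, ∀ u v : Fin n → K, u ≠ 0 → v ≠ 0 →
      (∀ j, u j ≠ 0 → s j = 0) → (∀ j, v j ≠ 0 → s j = 0) → W.mulVec u = z • u →
        W.mulVec v = x • v → z = x ∨ z = -x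
  · right; right
    obtain ⟨W, hWa, hWm, hWn⟩ := tor_nonnil hG hz
    obtain ⟨ζ, hζ, hζE⟩ := GE_ne W hWn
    obtain ⟨φ0, hφ0⟩ : ∃ φ0 : Module.Dual ℚ K, φ0 ζ ≠ 0 := by
      by_contra hcon
      push Not at hcon
      exact hζ ((Module.forall_dual_apply_eq_zero_iff ℚ ζ).1 hcon)
    obtain ⟨P, d, D, b, hb0, hPs, hPo, hd0, hDa, hDP, hDc, hDv⟩ := tor_gen hG hWa hWm φ0
    have hDe : D = (P : Matrix (Fin n) (Fin n) K) * Matrix.diagonal (fun j => (d j : K)) *
        ((P⁻¹ : Matrix.GeneralLinearGroup (Fin n) K) : Matrix (Fin n) (Fin n) K) := by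
      rw [← hDP, mul_assoc, PPi, mul_one]
    obtain ⟨i0, hi0⟩ : ∃ i, d i ≠ 0 := by
      by_contra hcon
      push Not at hcon
      have h1 : D = 0 := by
        rw [hDe]
        have : (Matrix.diagonal (fun j => (d j : K))) = 0 := by
          simp only [hcon, Int.cast_zero, Matrix.diagonal_zero]
        rw [this, mul_zero, zero_mul]
      obtain ⟨u, hu, hu0⟩ := Submodule.exists_mem_ne_zero_of_ne_bot hζE
      have h2 := hDv ζ u hu
      rw [h1, Matrix.zero_mulVec] at h2
      have h3 := (smul_eq_zero.1 h2.symm).resolve_right hu0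
      exact mul_ne_zero (Int.cast_ne_zero.2 hb0) hφ0 (Rat.cast_eq_zero.1 h3)
    have hsi0 : s i0 = 0 := by
      by_contra h
      exact hi0 (hd0 i0 h)
    have hDm : OnMid s D := by
      have hcom := hDc (Matrix.diagonal fun i => ((s i : ℤ) : K)) (by
        ext i j
        rw [Matrix.diagonal_mul, Matrix.mul_diagonal]
        by_cases h : W i j = 0
        · rw [h, mul_zero, zero_mul]
        · obtain ⟨h1, h2⟩ := hWm i j h
          rw [h1, h2, Int.cast_zero, zero_mul, mul_zero])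
      intro i j hij
      have h1 := congrFun (congrFun hcom i) j
      rw [Matrix.diagonal_mul, Matrix.mul_diagonal, mul_comm] at h1
      have h2 : s i = s j := by
        have := mul_left_cancel₀ hij h1
        exact_mod_cast this
      have h3 : s j = 0 := by
        by_contra h4
        apply hij
        have h5 : (Pi.single j 1 : Fin n → K) ∈ GE W 0 := by
          rw [mem_GE]
          refine ⟨1, ?_⟩
          rw [zero_smul, sub_zero, pow_one]
          funext l
          have h7 : W l j = 0 := by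
            by_contra h8
            exact h4 (hWm l j h8).2
          simpa using h7
        have h6 := hDv 0 _ h5
        rw [map_zero, mul_zero, Rat.cast_zero, zero_smul] at h6
        have h7 := congrFun h6 i
        simpa using h7
      exact ⟨by rw [h2, h3], h3⟩
    set δ : K := (d i0 : K) with hδ
    have hδ0 : δ ≠ 0 := Int.cast_ne_zero.2 hi0
    have hd2 : ∀ j, s j = 0 → (d j : K) * (d j : K) = δ * δ := by
      intro j hj
      have h1 := hng D ⟨hDa, hDm⟩ (d j) δ _ _ (Pcol_ne P j) (Pcol_ne P i0)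
        (fun k hk => by rw [hPs k j hk, hj]) (fun k hk => by rw [hPs k i0 hk, hsi0])
        (col_eq _ _ _ hDP j) (col_eq _ _ _ hDP i0)
      rcases h1 with h1 | h1
      · rw [h1]
      · rw [h1]
        ring
    have hDD : D * D = (δ * δ) • Matrix.diagonal (fun i => if s i = 0 then (1 : K) else 0) := by
      have h1 : D * D * (P : Matrix (Fin n) (Fin n) K) =
          ((δ * δ) • Matrix.diagonal (fun i => if s i = 0 then (1 : K) else 0)) *
            (P : Matrix (Fin n) (Fin n) K) := by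
        rw [mul_assoc, hDP, ← mul_assoc, hDP, mul_assoc, Matrix.diagonal_mul_diagonal]
        ext i j
        rw [Matrix.mul_diagonal, smul_mul_assoc, Matrix.smul_apply, Matrix.diagonal_mul,
          smul_eq_mul]
        by_cases h : (P : Matrix (Fin n) (Fin n) K) i j = 0
        · rw [h, zero_mul, mul_zero, mul_zero]
        · have h2 := hPs i j h
          by_cases h3 : s j = 0
          · rw [hd2 j h3, if_pos (by rw [h2, h3]), one_mul, mul_comm]
          · rw [hd0 j h3, if_neg (by rw [h2]; exact h3), Int.cast_zero]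
            ring
      have h2 := congrArg (fun M => M * ((P⁻¹ : Matrix.GeneralLinearGroup (Fin n) K) :
        Matrix (Fin n) (Fin n) K)) h1
      simp only [mul_assoc, PPi, mul_one] at h2
      exact h2
    refine ⟨δ⁻¹ • D, (Mid0 s a).smul_mem _ ⟨hDa, hDm⟩, ?_, hng⟩
    rw [smul_mul_assoc, mul_smul_comm, hDD, smul_smul, smul_smul]
    have : δ⁻¹ * δ⁻¹ * (δ * δ) = 1 := by
      field_simp
    rw [this, one_smul]
  · left
    push Not at hng
    obtain ⟨W, ⟨hWa, hWm⟩, z, x, u, v, hu, hv, hus, hvs, hWu, hWv, hzx, hzx'⟩ := hng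
    have h1 : z - x ≠ 0 := sub_ne_zero.2 hzx
    have h2 : z + x ≠ 0 := fun h => hzx' (eq_neg_of_add_eq_zero_left h)
    obtain ⟨φ0, hφ1, hφ2⟩ : ∃ φ0 : Module.Dual ℚ K, φ0 (z - x) ≠ 0 ∧ φ0 (z + x) ≠ 0 := by
      obtain ⟨f, hf⟩ : ∃ f : Module.Dual ℚ K, f (z - x) ≠ 0 := by
        by_contra hcon
        push Not at hcon
        exact h1 ((Module.forall_dual_apply_eq_zero_iff ℚ _).1 hcon)
      obtain ⟨g, hg⟩ : ∃ g : Module.Dual ℚ K, g (z + x) ≠ 0 := by
        by_contra hcon
        push Not at hcon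
        exact h2 ((Module.forall_dual_apply_eq_zero_iff ℚ _).1 hcon)
      by_cases hf' : f (z + x) = 0
      · by_cases hg' : g (z - x) = 0
        · refine ⟨f + g, ?_, ?_⟩
          · rw [LinearMap.add_apply, hg', add_zero]
            exact hf
          · rw [LinearMap.add_apply, hf', zero_add]
            exact hg
        · exact ⟨g, hg', hg⟩
      · exact ⟨f, hf, hf'⟩
    obtain ⟨P, d, D, b, hb0, hPs, hPo, hd0, hDa, hDP, hDc, hDv⟩ := tor_gen hG hWa hWm φ0
    have hbQ : (b : ℚ) ≠ 0 := Int.cast_ne_zero.2 hb0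
    have key : ∀ (w : Fin n → K) (t : K), w ≠ 0 → (∀ j, w j ≠ 0 → s j = 0) →
        W.mulVec w = t • w → ∃ i, s i = 0 ∧ (d i : ℚ) = (b : ℚ) * φ0 t := by
      intro w t hw hws hWw
      have h3 : w ∈ GE W t := by
        rw [mem_GE]
        refine ⟨1, ?_⟩
        rw [pow_one, Matrix.sub_mulVec, Matrix.smul_mulVec, Matrix.one_mulVec, hWw, sub_self]
      obtain ⟨i, hi, hi'⟩ := eig_mid P D s d hDP hPo w hw hws _ (hDv t w h3)
      refine ⟨i, hi, ?_⟩
      have h4 : (((d i : ℚ)) : K) = (((b : ℚ) * φ0 t : ℚ) : K) := by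
        rw [Rat.cast_intCast]
        exact hi'
      exact Rat.cast_injective h4
    obtain ⟨i, hi, hdi⟩ := key u z hu hus hWu
    obtain ⟨j, hj, hdj⟩ := key v x hv hvs hWv
    refine ⟨P, d, hPs, ⟨i, j, hi, hj, ?_, ?_⟩, hd0, ?_⟩
    · intro h
      apply hφ1
      have h5 : (b : ℚ) * φ0 z = (b : ℚ) * φ0 x := by rw [← hdi, ← hdj, h]
      rw [map_sub, mul_left_cancel₀ hbQ h5, sub_self]
    · intro h
      apply hφ2
      have h5 : (d i : ℚ) + (d j : ℚ) = 0 := by exact_mod_cast h
      rw [hdi, hdj, ← mul_add, ← map_add] at h5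
      exact (mul_eq_zero.1 h5).resolve_left hbQ
    · rw [← hDP, mul_assoc, PPi, mul_one]
      exact hDa

end MT
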